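import Mathlib

/-!
Powers of linear forms: from exponents `e i` to `e i * q` modulo a prime `p` (`q` a power of `p`),
and lifting with Nakayama's lemma.
-/

set_option autoImplicit false
set_option linter.unusedSimpArgs false
set_option linter.unnecessarySimpa false
set_option linter.unusedVariables false

open MvPolynomial

namespace Pool.Agent.Lib.FatPoints

universe u v

/-- linear form with coefficient vector `z`. -/
noncomputable def lf {A : Type u} {σ : Type} [CommRing A] [Fintype σ] (z : σ → A) :
    MvPolynomial σ A := ∑ i, z i • X i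

lemma sum_pow_prime {B : Type u} {ι : Type v} [CommRing B] {p : ℕ} (hp : p.Prime) (e : ℕ)
    (s : Finset ι) (f : ι → B) :
    ∃ r, (∑ i ∈ s, f i) ^ p ^ e = ∑ i ∈ s, f i ^ p ^ e + p * r := by
  classical
  induction s using Finset.induction_on with
  | empty =>
    refine ⟨0, ?_⟩
    simp [hp.ne_zero]
  | insert a s ha ih =>
    obtain ⟨r, hr⟩ := ih
    obtain ⟨t, ht⟩ := exists_add_pow_prime_pow_eq hp (f a) (∑ i ∈ s, f i) e
    refine ⟨r + f a * (∑ i ∈ s, f i) * t, ?_⟩
    rw [Finset.sum_insert ha, Finset.sum_insert ha, ht, hr]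
    ring

lemma lf_isHomogeneous {A : Type u} {σ : Type} [CommRing A] [Fintype σ] (z : σ → A) :
    (lf z).IsHomogeneous 1 := by
  unfold lf
  apply IsHomogeneous.sum
  intro i _
  rw [smul_eq_C_mul]
  have := (isHomogeneous_C σ (z i)).mul (isHomogeneous_X A i)
  simpa using this

/-- The key step: if all monomials of degree `b` lie in the ideal generated by the powers
`(lf (z i)) ^ (e i)`, then modulo `p` all monomials of degree `D` lie in the ideal generated by the
`(lf (z i)) ^ (e i * q)`; Nakayama's lemma turns this into a statement over the ring. -/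
lemma key_result {A : Type u} {σ : Type} {ι : Type v} [CommRing A] [Fintype σ] [Fintype ι]
    (z : ι → σ → A) (e : ι → ℕ) (b : ℕ) (he : ∀ i, e i ≤ b)
    (hspan : ∀ β : σ →₀ ℕ, β.degree = b → ∃ c : ι → MvPolynomial σ A,
      (∀ i, (c i).IsHomogeneous (b - e i)) ∧
      (monomial β 1 : MvPolynomial σ A) = ∑ i, c i * lf (z i) ^ e i)
    {p : ℕ} (hp : p.Prime) (l : ℕ) (D : ℕ)
    (hD : (b - 1) * p ^ l + Fintype.card σ * (p ^ l - 1) < D) (hb : 1 ≤ b) :
    ∃ s : A, s - 1 ∈ Ideal.span {(p : A)} ∧ ∀ γ : σ →₀ ℕ, γ.degree = D →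
      s • (monomial γ 1 : MvPolynomial σ A) ∈
        Ideal.span (Set.range fun i => lf (z i) ^ (e i * p ^ l)) := by
  classical
  set q := p ^ l with hq
  have hq0 : 0 < q := pow_pos hp.pos l
  set J : Ideal (MvPolynomial σ A) := Ideal.span (Set.range fun i => lf (z i) ^ (e i * q)) with hJ
  set L : Submodule A (MvPolynomial σ A) :=
    Submodule.span A ((fun γ : σ →₀ ℕ => (monomial γ 1 : MvPolynomial σ A)) ''
      {γ | γ.degree = D}) with hL
  have hLfg : L.FG := Submodule.fg_span ((Finsupp.finite_of_degree_eq D).image _)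
  have hom_mem : ∀ h : MvPolynomial σ A, h.IsHomogeneous D → h ∈ L := by
    intro h hh
    rw [MvPolynomial.as_sum h]
    apply Submodule.sum_mem
    intro s hs
    have : monomial s (coeff s h) = coeff s h • (monomial s 1 : MvPolynomial σ A) := by
      rw [smul_monomial, smul_eq_mul, mul_one]
    rw [this]
    apply Submodule.smul_mem
    apply Submodule.subset_span
    refine ⟨s, ?_, rfl⟩
    have := hh (mem_support_iff.mp hs)
    rw [Set.mem_ofPred_eq, ← this, Finsupp.degree_eq_weight_one]
    rfl
  have hle : L ≤ J.restrictScalars A ⊔ (Ideal.span {(p : A)}) • L := by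
    rw [hL, Submodule.span_le]
    rintro _ ⟨γ, hγ, rfl⟩
    rw [Set.mem_ofPred_eq] at hγ
    set v : σ →₀ ℕ := γ.mapRange (fun x => x / q) (Nat.zero_div q) with hv
    have hvdeg : b ≤ v.degree := by
      by_contra hlt
      push Not at hlt
      have h1 : γ.degree ≤ q * v.degree + Fintype.card σ * (q - 1) := by
        rw [Finsupp.degree_eq_sum, Finsupp.degree_eq_sum, Finset.mul_sum]
        have h2 : Fintype.card σ * (q - 1) = ∑ _i : σ, (q - 1) := by simp
        rw [h2, ← Finset.sum_add_distrib]
        apply Finset.sum_le_sum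
        intro i _
        rw [hv, Finsupp.mapRange_apply]
        have := Nat.div_add_mod (γ i) q
        have := Nat.mod_lt (γ i) hq0
        omega
      have h3 : q * v.degree ≤ (b - 1) * q := by
        rw [mul_comm]; exact Nat.mul_le_mul_right _ (by omega)
      omega
    obtain ⟨β, hβv, hβ⟩ := Finsupp.exists_le_degree_eq v b hvdeg
    have hqβ : q • β ≤ γ := by
      intro i
      have h1 := hβv i
      rw [hv, Finsupp.mapRange_apply] at h1
      rw [Finsupp.smul_apply, smul_eq_mul]
      calc q * β i ≤ q * (γ i / q) := Nat.mul_le_mul_left _ h1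
        _ ≤ γ i := Nat.mul_div_le _ _
    obtain ⟨δ, hδ⟩ := exists_add_of_le hqβ
    obtain ⟨c, hchom, hc⟩ := hspan β hβ
    obtain ⟨h, hh⟩ := sum_pow_prime hp l Finset.univ (fun i => c i * lf (z i) ^ e i)
    have h1 : (monomial (q • β) 1 : MvPolynomial σ A) =
        ∑ i, c i ^ q * lf (z i) ^ (e i * q) + p * h := by
      have : (monomial β 1 : MvPolynomial σ A) ^ q = monomial (q • β) 1 := by
        rw [monomial_pow, one_pow]
      rw [← this, hc, hh]
      congr 1
      apply Finset.sum_congr rfl
      intro i _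
      rw [mul_pow, ← pow_mul]
    have hdegqβ : (q • β).degree = b * q := by
      rw [map_nsmul, hβ, smul_eq_mul, mul_comm]
    have h2 : (monomial (q • β) 1 : MvPolynomial σ A) =
        ∑ i, c i ^ q * lf (z i) ^ (e i * q) + p * homogeneousComponent (b * q) h := by
      have hm : (monomial (q • β) (1 : A)).IsHomogeneous (b * q) :=
        isHomogeneous_monomial 1 hdegqβ
      have hs : (∑ i, c i ^ q * lf (z i) ^ (e i * q)).IsHomogeneous (b * q) := by
        apply IsHomogeneous.sum
        intro i _
        have h3 := (lf_isHomogeneous (z i)).pow (e i * q)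
        have h4 := ((hchom i).pow q).mul h3
        have h5 : (b - e i) * q + 1 * (e i * q) = b * q := by
          rw [one_mul, ← Nat.add_mul, Nat.sub_add_cancel (he i)]
        rwa [h5] at h4
      have h5 := congrArg (homogeneousComponent (b * q)) h1
      rw [map_add, homogeneousComponent_of_mem (n := b * q) (m := b * q)
        ((mem_homogeneousSubmodule _ _).mpr hm), homogeneousComponent_of_mem (n := b * q)
        (m := b * q) ((mem_homogeneousSubmodule _ _).mpr hs), if_pos rfl, if_pos rfl] at h5
      have hpC : (p : MvPolynomial σ A) = C (p : A) := by simp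
      rw [hpC, homogeneousComponent_C_mul, ← hpC] at h5
      exact h5
    have hmul : (monomial γ 1 : MvPolynomial σ A) = monomial (q • β) 1 * monomial δ 1 := by
      rw [monomial_mul, one_mul, hδ]
    have hdeg : b * q + δ.degree = D := by
      rw [← hγ, hδ, map_add, hdegqβ]
    rw [SetLike.mem_coe]
    change (monomial γ 1 : MvPolynomial σ A) ∈ _
    rw [hmul, h2, add_mul, Finset.sum_mul]
    apply Submodule.add_mem_sup
    · rw [Submodule.restrictScalars_mem]
      apply Ideal.sum_mem
      intro i _
      apply Ideal.mul_mem_right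
      apply Ideal.mul_mem_left
      exact Ideal.subset_span ⟨i, rfl⟩
    · rw [mul_assoc]
      have hpC : (p : MvPolynomial σ A) * (homogeneousComponent (b * q) h * monomial δ 1) =
          (p : A) • (homogeneousComponent (b * q) h * monomial δ 1) := by
        rw [smul_eq_C_mul]; simp
      rw [hpC]
      apply Submodule.smul_mem_smul (Ideal.mem_span_singleton_self _)
      have := hom_mem (homogeneousComponent (b * q) h * monomial δ 1) (by
        rw [← hdeg]
        exact (homogeneousComponent_isHomogeneous _ _).mul (isHomogeneous_monomial 1 rfl))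
      exact this
  obtain ⟨s, hs, hsL⟩ := Submodule.exists_sub_one_mem_and_smul_le_of_fg_of_le_sup hLfg le_rfl hle
  refine ⟨s, hs, ?_⟩
  intro γ hγ
  have h1 : (monomial γ 1 : MvPolynomial σ A) ∈ L := Submodule.subset_span ⟨γ, hγ, rfl⟩
  have h2 := hsL (Submodule.smul_mem_pointwise_smul _ s L h1)
  rwa [Submodule.restrictScalars_mem] at h2

/-! ### A subring with a non invertible prime -/

lemma isJacobsonRing_int : IsJacobsonRing ℤ := by
  rw [isJacobsonRing_iff_prime_eq]
  intro P hP
  by_cases h0 : P = ⊥
  · subst h0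
    rw [eq_bot_iff]
    intro x hx
    by_contra hx0
    rw [Ideal.mem_bot] at hx0
    obtain ⟨p, hp, hpp⟩ := Nat.exists_infinite_primes (x.natAbs + 1)
    have hpi : Prime (p : ℤ) := Nat.prime_iff_prime_int.mp hpp
    have hmax : (Ideal.span {(p : ℤ)}).IsMaximal :=
      PrincipalIdealRing.isMaximal_of_irreducible hpi.irreducible
    have hmem : x ∈ Ideal.span {(p : ℤ)} := by
      rw [Ideal.jacobson, Ideal.mem_sInf] at hx
      exact hx ⟨bot_le, hmax⟩
    rw [Ideal.mem_span_singleton] at hmem
    have h1 := Int.natAbs_dvd_natAbs.mpr hmem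
    have h2 := Nat.le_of_dvd (Int.natAbs_pos.mpr hx0) h1
    simp only [Int.natAbs_natCast] at h2
    omega
  · have : P.IsMaximal := IsPrime.to_maximal_ideal h0
    exact Ideal.jacobson_eq_self_of_isMaximal

/-- A finite subset of a field lies in a subring in which some prime number `p` is not
invertible, and moreover generates a proper ideal. -/
lemma exists_subring {k : Type u} [Field k] (S : Finset k) :
    ∃ (A : Subalgebra ℤ k) (p : ℕ), (∀ x ∈ S, x ∈ A) ∧
    p.Prime ∧ ∀ s : A, s - 1 ∈ Ideal.span {(p : A)} → s ≠ 0 := by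
  let A : Subalgebra ℤ k := Algebra.adjoin ℤ (S : Set k)
  have hft : Algebra.FiniteType ℤ A :=
    (Subalgebra.fg_iff_finiteType A).mp (Subalgebra.fg_adjoin_finset S)
  obtain ⟨M, hM⟩ := Ideal.exists_maximal A
  let _ : Field (A ⧸ M) := Ideal.Quotient.field M
  have hq : Algebra.FiniteType ℤ (A ⧸ M) :=
    Algebra.FiniteType.of_surjective (Ideal.Quotient.mkₐ ℤ M) (Ideal.Quotient.mkₐ_surjective ℤ M)
  have hj : IsJacobsonRing ℤ := isJacobsonRing_int
  have hfin : Module.Finite ℤ (A ⧸ M) := finite_of_finite_type_of_isJacobsonRing ℤ (A ⧸ M)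
  obtain ⟨p, hp⟩ := CharP.exists (A ⧸ M)
  have hp0 : p ≠ 0 := by
    rintro rfl
    have hcz : CharZero (A ⧸ M) := CharP.charP_to_charZero _
    have hint : Algebra.IsIntegral ℤ (A ⧸ M) := inferInstance
    have hinj : Function.Injective (algebraMap ℤ (A ⧸ M)) := by
      intro a b hab
      simpa using hab
    have hf : IsField ℤ := isField_of_isIntegral_of_isField hinj (Field.toIsField (A ⧸ M))
    exact Int.not_isField hf
  have hprime : p.Prime := (CharP.char_is_prime_or_zero (A ⧸ M) p).resolve_right hp0
  refine ⟨A, p, fun x hx => Algebra.subset_adjoin hx, hprime, ?_⟩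
  rintro s hs rfl
  apply hM.ne_top
  rw [Ideal.eq_top_iff_one]
  have h1 : (p : A) ∈ M := by
    rw [← Ideal.Quotient.eq_zero_iff_mem]
    have : ((p : ℕ) : A ⧸ M) = 0 := CharP.cast_eq_zero _ p
    simpa using this
  have h2 : (0 : A) - 1 ∈ M := (Ideal.span_singleton_le_iff_mem M).mpr h1 hs
  have h3 := M.neg_mem h2
  simpa using h3

end Pool.Agent.Lib.FatPoints
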