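import Pool.Agent.Lib.FatPoints.Shift
import Pool.Agent.Lib.FatPoints.Frob

/-!
Macaulay duality (apolarity) in characteristic zero.
-/

set_option autoImplicit false
set_option linter.unusedSimpArgs false
set_option linter.unnecessarySimpa false
set_option linter.unusedVariables false
set_option linter.unusedSectionVars false

open MvPolynomial

namespace Pool.Agent.Lib.FatPoints

universe u v

variable {k : Type u} [Field k] {σ : Type} [Fintype σ]

/-- directional derivative -/
noncomputable def Dz (z : σ → k) (F : MvPolynomial σ k) : MvPolynomial σ k :=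
  ∑ i, z i • pderiv i F

lemma sh_Dz (z : σ → k) (F : MvPolynomial σ k) :
    sh z (Dz z F) = Polynomial.derivative (sh z F) := by
  classical
  induction F using MvPolynomial.induction_on with
  | C a => simp [Dz]
  | add f g hf hg =>
    have : Dz z (f + g) = Dz z f + Dz z g := by
      simp [Dz, Finset.sum_add_distrib]
    rw [this, map_add, hf, hg, map_add, Polynomial.derivative_add]
  | mul_X f j hf =>
    have : Dz z (f * X j) = Dz z f * X j + f * C (z j) := by
      simp only [Dz, Derivation.leibniz, smul_add, Finset.sum_add_distrib, pderiv_X, smul_eq_mul]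
      rw [add_comm]
      congr 1
      · rw [Finset.sum_mul]
        apply Finset.sum_congr rfl
        intro i _
        rw [smul_mul_assoc, mul_comm (X j)]
      · rw [Finset.sum_eq_single j]
        · simp [smul_eq_C_mul, mul_comm]
        · intro b _ hb
          rw [Pi.single_eq_of_ne' hb]; simp
        · intro h; exact absurd (Finset.mem_univ j) h
    rw [this, map_add, map_mul, map_mul, hf, map_mul, Polynomial.derivative_mul, sh_X, sh_C]
    simp

lemma iterate_Dz (z : σ → k) (F : MvPolynomial σ k) (n : ℕ) :
    sh z ((Dz z)^[n] F) = Polynomial.derivative^[n] (sh z F) := by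
  induction n generalizing F with
  | zero => rfl
  | succ n ih => rw [Function.iterate_succ_apply, ih, sh_Dz, Function.iterate_succ_apply]

lemma iterate_Dz_eq_zero (z : σ → k) (F : MvPolynomial σ k) {n : ℕ} (h : K z F < n) :
    (Dz z)^[n] F = 0 := by
  apply sh_injective z
  rw [iterate_Dz, map_zero]
  exact Polynomial.iterate_derivative_eq_zero h

lemma iterate_Dz_eq (z : σ → k) (F : MvPolynomial σ k) (n : ℕ) :
    (Dz z)^[n] F = (n.factorial : MvPolynomial σ k) * (sh z F).coeff n := by
  have h := congrArg (fun P => P.coeff 0) (iterate_Dz z F n)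
  simp only [sh_coeff_zero, Polynomial.coeff_iterate_derivative, zero_add,
    Nat.descFactorial_self] at h
  rw [h, nsmul_eq_mul]

lemma K_lt_of_iterate_Dz [CharZero k] (z : σ → k) (F : MvPolynomial σ k) {n : ℕ} (hn : 1 ≤ n)
    (h : (Dz z)^[n] F = 0) : K z F < n := by
  by_contra hlt
  push Not at hlt
  obtain ⟨j, hj⟩ := Nat.exists_eq_add_of_le' hlt
  have h1 : (Dz z)^[K z F] F = 0 := by
    rw [hj, Function.iterate_add_apply, h]
    have : ∀ j : ℕ, (Dz z)^[j] (0 : MvPolynomial σ k) = 0 := by
      intro j
      induction j with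
      | zero => rfl
      | succ j ih =>
        rw [Function.iterate_succ_apply]
        have : Dz z (0 : MvPolynomial σ k) = 0 := by simp [Dz]
        rw [this, ih]
    exact this j
  rw [iterate_Dz_eq] at h1
  rcases mul_eq_zero.mp h1 with h2 | h2
  · have : (((K z F).factorial : ℕ) : MvPolynomial σ k) ≠ 0 := by
      exact_mod_cast Nat.factorial_ne_zero _
    exact this h2
  · have hF : F = 0 := by
      have h3 : sh z F = 0 := by
        rw [← Polynomial.leadingCoeff_eq_zero]; exact h2
      rw [← map_zero (sh z)] at h3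
      exact sh_injective z h3
    rw [hF] at hlt
    have : K z (0 : MvPolynomial σ k) = 0 := by simp [K]
    omega

/-- the apolarity functional of `F` -/
noncomputable def phi (F : MvPolynomial σ k) : MvPolynomial σ k →ₗ[k] k :=
  (basisMonomials σ k).constr k (fun γ => (∏ i, ((γ i).factorial : k)) * coeff γ F)

lemma phi_monomial (F : MvPolynomial σ k) (γ : σ →₀ ℕ) :
    phi F (monomial γ 1) = (∏ i, ((γ i).factorial : k)) * coeff γ F := by
  have := (basisMonomials σ k).constr_basis k
    (fun γ => (∏ i, ((γ i).factorial : k)) * coeff γ F) γ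
  rw [coe_basisMonomials] at this
  exact this

lemma phi_zero (g : MvPolynomial σ k) : phi (0 : MvPolynomial σ k) g = 0 := by
  have : phi (0 : MvPolynomial σ k) = 0 := by
    apply (basisMonomials σ k).ext
    intro γ
    rw [coe_basisMonomials, phi_monomial]; simp
  rw [this]; simp

lemma fact_single (γ : σ →₀ ℕ) (i : σ) :
    (∏ j, (((γ + Finsupp.single i 1 : σ →₀ ℕ) j).factorial : k)) =
      (∏ j, ((γ j).factorial : k)) * (γ i + 1) := by
  classical
  rw [← Finset.mul_prod_erase _ _ (Finset.mem_univ i),
    ← Finset.mul_prod_erase _ (fun j => ((γ j).factorial : k)) (Finset.mem_univ i)]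
  have h1 : ∏ j ∈ Finset.univ.erase i, (((γ + Finsupp.single i 1 : σ →₀ ℕ) j).factorial : k) =
      ∏ j ∈ Finset.univ.erase i, ((γ j).factorial : k) := by
    apply Finset.prod_congr rfl
    intro j hj
    have hji : i ≠ j := (Finset.ne_of_mem_erase hj).symm
    rw [Finsupp.add_apply, Finsupp.single_eq_of_ne' hji, add_zero]
  rw [h1, Finsupp.add_apply, Finsupp.single_eq_same, Nat.factorial_succ]
  push_cast; ring

lemma phi_lf_mul (z : σ → k) (F g : MvPolynomial σ k) :
    phi F (lf z * g) = phi (Dz z F) g := by
  have h : (phi F).comp (LinearMap.mulLeft k (lf z)) = phi (Dz z F) := by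
    apply (basisMonomials σ k).ext
    intro γ
    rw [coe_basisMonomials, phi_monomial]
    rw [LinearMap.comp_apply, LinearMap.mulLeft_apply]
    unfold lf Dz
    rw [Finset.sum_mul, map_sum, coeff_sum, Finset.mul_sum]
    apply Finset.sum_congr rfl
    intro i _
    have hX : (z i • X i : MvPolynomial σ k) * monomial γ 1 =
        z i • monomial (γ + Finsupp.single i 1) 1 := by
      rw [smul_mul_assoc, X, monomial_mul, one_mul, add_comm]
    rw [hX, map_smul, phi_monomial, fact_single, coeff_smul, coeff_pderiv, smul_eq_mul,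
      smul_eq_mul]
    ring
  have := congrArg (fun ψ => ψ g) h
  simpa using this

lemma phi_lf_pow_mul (z : σ → k) (F g : MvPolynomial σ k) (n : ℕ) :
    phi F (lf z ^ n * g) = phi ((Dz z)^[n] F) g := by
  induction n generalizing F with
  | zero => simp
  | succ n ih => rw [pow_succ', mul_assoc, phi_lf_mul, ih, Function.iterate_succ_apply]

lemma phi_ideal {ι : Type v} (z : ι → σ → k) (n : ι → ℕ) {F : MvPolynomial σ k}
    (hF : ∀ i, K (z i) F < n i) {g : MvPolynomial σ k}
    (hg : g ∈ Ideal.span (Set.range fun i => lf (z i) ^ n i)) : phi F g = 0 := by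
  have hle : ∀ g ∈ Ideal.span (Set.range fun i => lf (z i) ^ n i),
      ∀ h : MvPolynomial σ k, phi F (h * g) = 0 := by
    intro g hg
    refine Submodule.span_induction
      (p := fun g _ => ∀ h : MvPolynomial σ k, phi F (h * g) = 0) ?_ ?_ ?_ ?_ hg
    · rintro _ ⟨i, rfl⟩ h
      simp only
      rw [mul_comm, phi_lf_pow_mul, iterate_Dz_eq_zero _ _ (hF i), phi_zero]
    · intro h; simp
    · intro x y _ _ hx hy h
      rw [mul_add, map_add, hx, hy, add_zero]
    · intro a x _ hx h
      rw [smul_eq_mul, ← mul_assoc]; exact hx _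
  have := hle g hg 1
  simpa using this

lemma prod_fact_ne_zero [CharZero k] (γ : σ →₀ ℕ) : (∏ i, ((γ i).factorial : k)) ≠ 0 := by
  apply Finset.prod_ne_zero_iff.mpr
  intro i _
  exact_mod_cast Nat.factorial_ne_zero _

lemma exists_phi_ne_zero [CharZero k] {d : ℕ} {F : MvPolynomial σ k} (h : Hd d F) (h0 : F ≠ 0) :
    ∃ γ : σ →₀ ℕ, γ.degree = d ∧ phi F (monomial γ 1) ≠ 0 := by
  obtain ⟨γ, hγ⟩ := MvPolynomial.ne_zero_iff.mp h0
  refine ⟨γ, ?_, ?_⟩
  · have := h.isHomogeneous hγ
    rw [← this, Finsupp.degree_eq_weight_one]; rfl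
  · rw [phi_monomial]
    exact mul_ne_zero (prod_fact_ne_zero γ) hγ

/-- The dual statement: if no form of degree `b` has small degree in all the directions `z i`, then
all monomials of degree `b` lie in the ideal generated by powers of the linear forms. -/
lemma span_of_no_form [CharZero k] {ι : Type v} [Fintype ι] (z : ι → σ → k) (b : ℕ) (e : ι → ℕ)
    (he1 : ∀ i, 1 ≤ e i)
    (hmin : ∀ G : MvPolynomial σ k, G ≠ 0 → Hd b G → ∃ i, e i ≤ K (z i) G)
    (β : σ →₀ ℕ) (hβ : β.degree = b) :
    ∃ c : ι → MvPolynomial σ k, (∀ i, (c i).IsHomogeneous (b - e i)) ∧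
      (monomial β 1 : MvPolynomial σ k) = ∑ i, c i * lf (z i) ^ e i := by
  classical
  -- the subspace spanned by the products
  let W : Submodule k (MvPolynomial σ k) :=
    { carrier := {g | ∃ c : ι → MvPolynomial σ k, (∀ i, (c i).IsHomogeneous (b - e i)) ∧
        g = ∑ i, c i * lf (z i) ^ e i}
      add_mem' := by
        rintro g h ⟨c, hc, rfl⟩ ⟨d, hd, rfl⟩
        refine ⟨fun i => c i + d i, fun i => (hc i).add (hd i), ?_⟩
        rw [← Finset.sum_add_distrib]
        exact Finset.sum_congr rfl fun i _ => by ring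
      zero_mem' := ⟨fun _ => 0, fun i => isHomogeneous_zero _ _ _, by simp⟩
      smul_mem' := by
        rintro a g ⟨c, hc, rfl⟩
        refine ⟨fun i => a • c i, fun i => ?_, ?_⟩
        · beta_reduce
          rw [smul_eq_C_mul]
          have := (isHomogeneous_C σ a).mul (hc i)
          simpa using this
        · rw [Finset.smul_sum]
          exact Finset.sum_congr rfl fun i _ => by rw [smul_mul_assoc] }
  have hmem : (monomial β 1 : MvPolynomial σ k) ∈ W := by
    by_contra hnot
    obtain ⟨φ, hφ, hle⟩ := Submodule.exists_le_ker_of_notMem hnot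
    set B := (Finsupp.finite_of_degree_eq (σ := σ) b).toFinset with hB
    have hBmem : ∀ γ : σ →₀ ℕ, γ ∈ B ↔ γ.degree = b := by
      intro γ
      rw [hB, Set.Finite.mem_toFinset, Set.mem_ofPred_eq]
    set F : MvPolynomial σ k := ∑ γ ∈ B,
      monomial γ ((∏ i, ((γ i).factorial : k))⁻¹ * φ (monomial γ 1)) with hF
    have hFcoeff : ∀ γ : σ →₀ ℕ, γ.degree = b →
        coeff γ F = (∏ i, ((γ i).factorial : k))⁻¹ * φ (monomial γ 1) := by
      intro γ hγ
      rw [hF, coeff_sum]
      simp only [coeff_monomial]
      rw [Finset.sum_ite_eq', if_pos ((hBmem γ).mpr hγ)]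
    have hFhom : F.IsHomogeneous b := by
      apply IsHomogeneous.sum
      intro γ hγ
      exact isHomogeneous_monomial _ ((hBmem γ).mp hγ)
    have hphi : ∀ γ : σ →₀ ℕ, γ.degree = b → phi F (monomial γ 1) = φ (monomial γ 1) := by
      intro γ hγ
      rw [phi_monomial, hFcoeff γ hγ, ← mul_assoc, mul_inv_cancel₀ (prod_fact_ne_zero γ), one_mul]
    have hphi2 : ∀ g : MvPolynomial σ k, g.IsHomogeneous b → phi F g = φ g := by
      intro g hg
      rw [MvPolynomial.as_sum g, map_sum, map_sum]
      apply Finset.sum_congr rfl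
      intro s hs
      have h1 : monomial s (coeff s g) = coeff s g • (monomial s 1 : MvPolynomial σ k) := by
        rw [smul_monomial, smul_eq_mul, mul_one]
      have hsd : s.degree = b := by
        have := hg (mem_support_iff.mp hs)
        rw [← this, Finsupp.degree_eq_weight_one]; rfl
      rw [h1, map_smul, map_smul, hphi s hsd]
    have hF0 : F ≠ 0 := by
      intro h
      have h1 := hphi β hβ
      rw [h, phi_zero] at h1
      exact hφ h1.symm
    obtain ⟨i, hi⟩ := hmin F hF0 (Hd_of_isHomogeneous hFhom)
    have hKb := K_le_of_Hd (Hd_of_isHomogeneous hFhom) (z i)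
    apply absurd hi
    rw [not_le]
    apply K_lt_of_iterate_Dz (z i) F (he1 i)
    by_contra hne
    have hne2 : (sh (z i) F).coeff (e i) ≠ 0 := by
      intro h
      rw [iterate_Dz_eq, h, mul_zero] at hne
      exact hne rfl
    have hHd : Hd (b - e i) ((Dz (z i))^[e i] F) := by
      rw [iterate_Dz_eq]
      have h1 := (Hd_coeff (Hd_of_isHomogeneous hFhom) (z i) (e i) hne2).2
      unfold Hd at *
      rw [map_mul, h1, map_natCast, map_mul, map_natCast]; ring
    obtain ⟨δ, hδ, hδne⟩ := exists_phi_ne_zero hHd hne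
    apply hδne
    rw [← phi_lf_pow_mul]
    have hei : e i ≤ b := by omega
    have hhom : (lf (z i) ^ e i * monomial δ 1 : MvPolynomial σ k).IsHomogeneous b := by
      have h1 := ((lf_isHomogeneous (z i)).pow (e i)).mul
        (isHomogeneous_monomial (R := k) 1 hδ)
      have h2 : 1 * e i + (b - e i) = b := by omega
      rwa [h2] at h1
    rw [hphi2 _ hhom]
    apply hle
    refine ⟨fun j => if j = i then monomial δ 1 else 0, ?_, ?_⟩
    · intro j
      beta_reduce
      by_cases hj : j = i
      · subst hj
        rw [if_pos rfl]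
        exact isHomogeneous_monomial 1 hδ
      · rw [if_neg hj]; exact isHomogeneous_zero _ _ _
    · rw [Finset.sum_eq_single i]
      · beta_reduce
        rw [if_pos rfl, mul_comm]
      · intro j _ hj
        beta_reduce
        rw [if_neg hj, zero_mul]
      · intro h; exact absurd (Finset.mem_univ i) h
  exact hmem

end Pool.Agent.Lib.FatPoints
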