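import Pool.Agent.Lib.FatPoints.Apolar

/-!
The Chudnovsky-Demailly inequality for fat points in characteristic zero.
-/

set_option autoImplicit false
set_option linter.unusedSimpArgs false
set_option linter.unnecessarySimpa false
set_option linter.unusedVariables false
set_option linter.unusedSectionVars false

open MvPolynomial

namespace Pool.Agent.Lib.FatPoints

universe u v

variable {k : Type u} [Field k] {σ : Type} [Fintype σ]

lemma map_lf {A B : Type u} [CommRing A] [CommRing B] (φ : A →+* B) (z : σ → A) :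
    MvPolynomial.map φ (lf z) = lf (fun i => φ (z i)) := by
  unfold lf
  rw [map_sum]
  apply Finset.sum_congr rfl
  intro i _
  rw [smul_eq_C_mul, map_mul, map_C, map_X, smul_eq_C_mul]

/-- polynomials with coefficients in a subring can be lifted, keeping homogeneity. -/
lemma exists_lift (A : Subalgebra ℤ k) (c : MvPolynomial σ k) (hc : ∀ s, coeff s c ∈ A) {d : ℕ}
    (hd : c.IsHomogeneous d) :
    ∃ c' : MvPolynomial σ A, MvPolynomial.map (algebraMap A k) c' = c ∧ c'.IsHomogeneous d := by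
  classical
  refine ⟨∑ s ∈ c.support, monomial s ⟨coeff s c, hc s⟩, ?_, ?_⟩
  · rw [map_sum]
    conv_rhs => rw [MvPolynomial.as_sum c]
    apply Finset.sum_congr rfl
    intro s _
    rw [map_monomial]
    rfl
  · apply IsHomogeneous.sum
    intro s hs
    apply isHomogeneous_monomial
    have := hd (mem_support_iff.mp hs)
    rw [← this, Finsupp.degree_eq_weight_one]; rfl

/-- The core statement: for a suitable prime `p` and all its powers. -/
lemma core [CharZero k] {ι : Type} [Fintype ι] (z : ι → σ → k) (b : ℕ) (hb : 1 ≤ b) (e : ι → ℕ)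
    (he1 : ∀ i, 1 ≤ e i) (heb : ∀ i, e i ≤ b)
    (hmin : ∀ G : MvPolynomial σ k, G ≠ 0 → Hd b G → ∃ i, e i ≤ K (z i) G) :
    ∃ p : ℕ, p.Prime ∧ ∀ (l : ℕ) (F : MvPolynomial σ k) (D : ℕ), Hd D F → F ≠ 0 →
      (∀ i, K (z i) F < e i * p ^ l) →
      D ≤ (b - 1) * p ^ l + Fintype.card σ * (p ^ l - 1) := by
  classical
  have hsp := span_of_no_form z b e he1 hmin
  -- choose coefficients
  have hchoice : ∀ β : σ →₀ ℕ, ∃ c : ι → MvPolynomial σ k, β.degree = b →
      (∀ i, (c i).IsHomogeneous (b - e i)) ∧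
      (monomial β 1 : MvPolynomial σ k) = ∑ i, c i * lf (z i) ^ e i := by
    intro β
    by_cases h : β.degree = b
    · obtain ⟨c, hc⟩ := hsp β h
      exact ⟨c, fun _ => hc⟩
    · exact ⟨fun _ => 0, fun h' => absurd h' h⟩
  choose c hc using hchoice
  set B := (Finsupp.finite_of_degree_eq (σ := σ) b).toFinset with hB
  let S : Finset k := (Finset.univ.biUnion fun i : ι => Finset.univ.image (z i)) ∪
    (B.biUnion fun β => Finset.univ.biUnion fun i : ι =>
      (c β i).support.image fun s => coeff s (c β i))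
  obtain ⟨A, p, hSA, hp, hs⟩ := exists_subring S
  refine ⟨p, hp, ?_⟩
  intro l F D hD hF hK
  by_contra hlt
  push Not at hlt
  have hzA : ∀ (i : ι) (j : σ), z i j ∈ A := by
    intro i j
    apply hSA
    apply Finset.mem_union_left
    rw [Finset.mem_biUnion]
    exact ⟨i, Finset.mem_univ i, Finset.mem_image_of_mem _ (Finset.mem_univ j)⟩
  have hcA : ∀ β : σ →₀ ℕ, β.degree = b → ∀ (i : ι) (s : σ →₀ ℕ), coeff s (c β i) ∈ A := by
    intro β hβ i s
    by_cases hs0 : coeff s (c β i) = 0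
    · rw [hs0]; exact A.zero_mem
    · apply hSA
      apply Finset.mem_union_right
      rw [Finset.mem_biUnion]
      refine ⟨β, ?_, ?_⟩
      · rw [hB, Set.Finite.mem_toFinset, Set.mem_ofPred_eq]; exact hβ
      · rw [Finset.mem_biUnion]
        exact ⟨i, Finset.mem_univ i, Finset.mem_image_of_mem (fun s => coeff s (c β i))
          (mem_support_iff.mpr hs0)⟩
  let zA : ι → σ → A := fun i j => ⟨z i j, hzA i j⟩
  let φ : A →+* k := algebraMap A k
  have hinj : Function.Injective (MvPolynomial.map (σ := σ) φ) :=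
    MvPolynomial.map_injective φ Subtype.val_injective
  have hmaplf : ∀ i : ι, MvPolynomial.map φ (lf (zA i)) = lf (z i) := fun i => map_lf φ (zA i)
  have hspanA : ∀ β : σ →₀ ℕ, β.degree = b → ∃ c' : ι → MvPolynomial σ A,
      (∀ i, (c' i).IsHomogeneous (b - e i)) ∧
      (monomial β 1 : MvPolynomial σ A) = ∑ i, c' i * lf (zA i) ^ e i := by
    intro β hβ
    have hl : ∀ i, ∃ c' : MvPolynomial σ A, MvPolynomial.map φ c' = c β i ∧
        c'.IsHomogeneous (b - e i) := fun i => exists_lift A (c β i) (hcA β hβ i) ((hc β hβ).1 i)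
    choose c' hc'1 hc'2 using hl
    refine ⟨c', hc'2, ?_⟩
    apply hinj
    rw [map_monomial, map_one, (hc β hβ).2, map_sum]
    apply Finset.sum_congr rfl
    intro i _
    rw [map_mul, map_pow, hmaplf, hc'1]
  obtain ⟨s, hs1, hs2⟩ := key_result zA e b heb hspanA hp l D hlt hb
  have hs0 := hs s hs1
  obtain ⟨γ, hγ, hne⟩ := exists_phi_ne_zero hD hF
  have h1 := Ideal.mem_map_of_mem (MvPolynomial.map φ) (hs2 γ hγ)
  rw [Ideal.map_span, ← Set.range_comp] at h1
  have h2 : MvPolynomial.map φ (s • (monomial γ 1 : MvPolynomial σ A)) =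
      (φ s) • (monomial γ 1 : MvPolynomial σ k) := by
    rw [smul_eq_C_mul, map_mul, map_C, map_monomial, map_one, smul_eq_C_mul]
  rw [h2] at h1
  have h3 : (MvPolynomial.map φ ∘ fun i : ι => lf (zA i) ^ (e i * p ^ l)) =
      fun i : ι => lf (z i) ^ (e i * p ^ l) := by
    funext i
    simp only [Function.comp_apply, map_pow, hmaplf]
  rw [h3] at h1
  have h4 := phi_ideal z (fun i => e i * p ^ l) hK h1
  rw [map_smul, smul_eq_mul] at h4
  rcases mul_eq_zero.mp h4 with h5 | h5
  · apply hs0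
    exact Subtype.ext h5
  · exact hne h5

/-- Asymptotic form: if `n (D - s m i) < q (b + 1 - t m i)` forces `n D < (b + N) q`, then the
Demailly inequality holds. -/
lemma asymp [CharZero k] {ι : Type} [Fintype ι] (N : ℕ) (hN1 : 1 ≤ N)
    (hN : Fintype.card σ = N + 1) (z : ι → σ → k) (m : ι → ℕ) (hm : ∀ i, 1 ≤ m i) (i0 : ι) (t s b D : ℕ) (ht : 1 ≤ t)
    (hs : 1 ≤ s) (htb : ∀ i, t * m i ≤ b)
    (hmin : ∀ G : MvPolynomial σ k, G ≠ 0 → Hd b G → ∃ i, b < K (z i) G + t * m i)
    {F : MvPolynomial σ k} (hD : Hd D F) (hF : F ≠ 0) (hK : ∀ i, K (z i) F + s * m i ≤ D) :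
    s * (b + N) ≤ (t + N - 1) * D := by
  by_contra hlt
  push Not at hlt
  have hb1 : 1 ≤ b := le_trans (Nat.mul_pos ht (hm i0)) (htb i0)
  have hD1 : 1 ≤ D := by
    have := hK i0
    have := Nat.mul_pos hs (hm i0)
    omega
  obtain ⟨p, hp, hcore⟩ := core z b hb1 (fun i => b + 1 - t * m i)
    (fun i => by have := htb i; omega)
    (fun i => by have := Nat.mul_pos ht (hm i); omega)
    (fun G hG hGd => by
      obtain ⟨i, hi⟩ := hmin G hG hGd
      exact ⟨i, by omega⟩)
  set l := D * D + 1 with hl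
  set q := p ^ l with hq
  have hql : l < q := Nat.lt_pow_self hp.one_lt
  -- the multiple
  set n := ((b + N) * q + (D - 1)) / D with hn
  have hn1 : (b + N) * q ≤ n * D := by
    have h1 := Nat.lt_mul_div_succ ((b + N) * q + (D - 1)) (show 0 < D by omega)
    rw [← hn] at h1
    have h2 : D * (n + 1) = n * D + D := by ring
    omega
  have hn2 : n * D ≤ (b + N) * q + (D - 1) := by
    have h1 := Nat.div_mul_le_self ((b + N) * q + (D - 1)) D
    rwa [← hn] at h1
  have hkey : ∀ i, n * K (z i) F < (b + 1 - t * m i) * q := by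
    intro i
    have h1 := hK i
    have h2 := htb i
    obtain ⟨x, hx⟩ := Nat.exists_eq_add_of_le h2
    obtain ⟨y, hy⟩ := Nat.exists_eq_add_of_le (show s * m i ≤ D by omega)
    have hKy : K (z i) F ≤ y := by omega
    have hbx : b + 1 - t * m i = x + 1 := by omega
    rw [hbx]
    refine lt_of_le_of_lt (Nat.mul_le_mul_left n hKy) ?_
    -- multiply by D
    apply Nat.lt_of_mul_lt_mul_left (a := D)
    obtain ⟨D', hD'⟩ : ∃ D', D = D' + 1 := ⟨D - 1, by omega⟩
    have hmi := hm i
    obtain ⟨m', hm'⟩ : ∃ m', m i = m' + 1 := ⟨m i - 1, by omega⟩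
    obtain ⟨t', ht'⟩ : ∃ t', t = t' + 1 := ⟨t - 1, by omega⟩
    -- D * (n * y) ≤ ((b + N) q + D - 1) y
    have h3 : D * (n * y) ≤ ((b + N) * q + (D - 1)) * y := by
      calc D * (n * y) = (n * D) * y := by ring
        _ ≤ _ := Nat.mul_le_mul_right _ hn2
    refine lt_of_le_of_lt h3 ?_
    -- need ((b+N) q + D') y < D (x+1) q
    have h4 : (t + N - 1) * D + 1 ≤ s * (b + N) := hlt
    have h5 : t + N - 1 = t' + N := by omega
    rw [h5] at h4
    -- (b + N) y + 1 ≤ D (x + 1)
    have h6 : (b + N) * y + 1 ≤ D * (x + 1) := by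
      have e1 : (b + N) * D = (b + N) * (s * m i) + (b + N) * y := by
        rw [← Nat.mul_add, ← hy]
      have e2 : m i * ((t' + N) * D + 1) ≤ m i * (s * (b + N)) := Nat.mul_le_mul_left _ h4
      have e3 : D * b = D * (t * m i) + D * x := by rw [← Nat.mul_add, ← hx]
      have e4 : D * (N + t * m i) ≤ m i * ((t' + N) * D) + D := by
        obtain ⟨N', hN'⟩ : ∃ N', N = N' + 1 := ⟨N - 1, by omega⟩
        rw [hm', ht', hN']
        have : (m' + 1) * ((t' + (N' + 1)) * D) + D =
          D * (N' + 1 + (t' + 1) * (m' + 1)) + D * m' * N' := by ring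
        rw [this]
        exact Nat.le_add_right _ _
      have e5 : m i ≥ 1 := hmi
      have e6 : (b + N) * (s * m i) = m i * (s * (b + N)) := by ring
      have e7 : m i * ((t' + N) * D + 1) = m i * ((t' + N) * D) + m i := by ring
      have e8 : D * (N + t * m i) = D * N + D * (t * m i) := by ring
      have e9 : (b + N) * D = D * b + D * N := by ring
      have e10 : D * (x + 1) = D * x + D := by ring
      omega
    have h7 : D - 1 = D' := by omega
    rw [h7]
    have hyD : y ≤ D := by omega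
    have h8 : D' * y < q := by
      have : D' * y ≤ D * D := Nat.mul_le_mul (by omega) hyD
      omega
    calc ((b + N) * q + D') * y = ((b + N) * y) * q + D' * y := by ring
      _ < ((b + N) * y) * q + q := by omega
      _ = ((b + N) * y + 1) * q := by ring
      _ ≤ (D * (x + 1)) * q := Nat.mul_le_mul_right _ h6
      _ = D * ((x + 1) * q) := by ring
  have h9 := hcore l (F ^ n) (n * D) (hD.pow n) (pow_ne_zero _ hF) (by
    intro i
    rw [K_pow]
    exact hkey i)
  rw [← hq, hN] at h9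
  have h10 := hn1.trans h9
  obtain ⟨q', hq'⟩ : ∃ q', q = q' + 1 := ⟨q - 1, by omega⟩
  obtain ⟨b', hb'⟩ : ∃ b', b = b' + 1 := ⟨b - 1, by omega⟩
  rw [hq', hb'] at h10
  simp only [Nat.add_sub_cancel] at h10
  nlinarith

/-- **Main inequality** for fat points, in terms of the degrees `K (z i) F`. -/
theorem fat_main [CharZero k] {ι : Type} [Fintype ι] (N : ℕ) (hN1 : 1 ≤ N)
    (hN : Fintype.card σ = N + 1) (z : ι → σ → k) (m : ι → ℕ) (i0 : ι) (hi0 : 1 ≤ m i0) (t s b D : ℕ) (ht : 1 ≤ t)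
    (hs : 1 ≤ s)
    (hmin : ∀ G : MvPolynomial σ k, G ≠ 0 → Hd b G → ∃ i, b < K (z i) G + t * m i)
    {F : MvPolynomial σ k} (hD : Hd D F) (hF : F ≠ 0) (hK : ∀ i, K (z i) F + s * m i ≤ D) :
    s * (b + N) ≤ (t + N - 1) * D := by
  classical
  by_cases hbig : ∃ i, b < t * m i
  · obtain ⟨i, hi⟩ := hbig
    have h1 : s * m i ≤ D := by have := hK i; omega
    have hmi : 1 ≤ m i := by
      rcases Nat.eq_zero_or_pos (m i) with h | h
      · rw [h] at hi; omega
      · exact h
    obtain ⟨t', ht'⟩ : ∃ t', t = t' + 1 := ⟨t - 1, by omega⟩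
    obtain ⟨m', hm'⟩ : ∃ m', m i = m' + 1 := ⟨m i - 1, by omega⟩
    have h2 : t + N - 1 = t' + N := by omega
    rw [h2]
    have h3 : b + N ≤ (t' + N) * m i := by
      obtain ⟨N', hN'⟩ : ∃ N', N = N' + 1 := ⟨N - 1, by omega⟩
      rw [hm', ht'] at hi
      rw [hm', hN']
      have e1 : (t' + 1) * (m' + 1) = t' * m' + t' + m' + 1 := by ring
      have e2 : (t' + (N' + 1)) * (m' + 1) = t' * m' + t' + m' + 1 + N' + N' * m' := by ring
      rw [e1] at hi
      rw [e2]
      omega
    calc s * (b + N) ≤ s * ((t' + N) * m i) := Nat.mul_le_mul_left _ h3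
      _ = (t' + N) * (s * m i) := by ring
      _ ≤ _ := Nat.mul_le_mul_left _ h1
  · push Not at hbig
    let ι' := {i : ι // 1 ≤ m i}
    apply asymp (ι := ι') N hN1 hN (fun i => z i) (fun i => m i) (fun i => i.2) ⟨i0, hi0⟩ t s b D ht hs
      (fun i => hbig i) _ hD hF (fun i => hK i)
    intro G hG hGd
    obtain ⟨i, hi⟩ := hmin G hG hGd
    refine ⟨⟨i, ?_⟩, hi⟩
    by_contra h0
    have : m i = 0 := by omega
    rw [this, Nat.mul_zero, Nat.add_zero] at hi
    have := K_le_of_Hd hGd (z i)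
    omega

/-- Ideal-theoretic form: the Demailly inequality for fat points in characteristic zero. The
hypothesis uses the kernel form of the ideal of a point, the conclusion the (smaller or equal)
ideal generated by linear forms. -/
theorem fat_points [CharZero k] {ι : Type} [Fintype ι] (N : ℕ) (hN1 : 1 ≤ N)
    (z : ι → Fin (N + 1) → k) (hz : ∀ i, z i ≠ 0) (m : ι → ℕ) (hm : ∃ i, 1 ≤ m i) (t s : ℕ)
    (ht : 1 ≤ t) (hs : 1 ≤ s) (f : MvPolynomial (Fin (N + 1)) k) (h0 : f ≠ 0)
    (hf : ∀ i, f ∈ RingHom.ker (evT (z i)) ^ (s * m i)) :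
    ∃ (d : ℕ) (g : MvPolynomial (Fin (N + 1)) k), g ≠ 0 ∧ g.IsHomogeneous d ∧
      (∀ i, g ∈ LI (z i) ^ (t * m i)) ∧ s * (d + N - 1) ≤ (t + N - 1) * f.totalDegree := by
  classical
  obtain ⟨i0, hi0⟩ := hm
  have hDf := natDegree_sc_le f
  obtain ⟨D, hD⟩ : ∃ D, D = (sc f).natDegree := ⟨_, rfl⟩
  rw [← hD] at hDf
  have hF0 : (sc f).coeff D ≠ 0 := by
    rw [hD, Polynomial.coeff_natDegree, Polynomial.leadingCoeff_ne_zero, Ne,
      map_eq_zero_iff _ sc_injective]
    exact h0
  have hKF : ∀ i, K (z i) ((sc f).coeff D) + s * m i ≤ D := fun i => by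
    have h1 := K_sc_coeff_le (z i) f D
    have h2 := K_add_le_of_mem_ker (z i) (hf i) h0
    omega
  -- minimal degree of a form in the ideal
  have hmem : ∀ (d : ℕ) (G : MvPolynomial (Fin (N + 1)) k), Hd d G →
      (∀ i, K (z i) G + t * m i ≤ d) → ∀ i, G ∈ LI (z i) ^ (t * m i) :=
    fun d G hG hKG i => mem_of_K_add_le (hz i) hG (hKG i)
  have hex : ∃ d, ∃ G : MvPolynomial (Fin (N + 1)) k, G ≠ 0 ∧ Hd d G ∧
      ∀ i, K (z i) G + t * m i ≤ d := by
    refine ⟨t * D, ((sc f).coeff D) ^ t, pow_ne_zero _ hF0, (Hd_sc_coeff f D).pow t, ?_⟩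
    intro i
    rw [K_pow, ← Nat.mul_add]
    apply Nat.mul_le_mul_left
    have h1 := hKF i
    have h2 : m i ≤ s * m i := Nat.le_mul_of_pos_left _ hs
    omega
  obtain ⟨G, hG0, hGd, hGK⟩ := Nat.find_spec hex
  set α := Nat.find hex with hα
  refine ⟨α, G, hG0, hGd.isHomogeneous, hmem α G hGd hGK, ?_⟩
  have hα1 : 1 ≤ α := by
    have h1 := hGK i0
    have h2 := Nat.mul_pos ht hi0
    omega
  obtain ⟨b, hb⟩ : ∃ b, α = b + 1 := ⟨α - 1, by omega⟩
  have hmain := fat_main N hN1 (Fintype.card_fin _) z m i0 hi0 t s b D ht hs (fun G' hG' hGd' => by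
    by_contra hcon
    push Not at hcon
    have := Nat.find_min' hex ⟨G', hG', hGd', hcon⟩
    omega) (Hd_sc_coeff f D) hF0 hKF
  have h1 : α + N - 1 = b + N := by omega
  rw [h1]
  exact hmain.trans (Nat.mul_le_mul_left _ hDf)

end Pool.Agent.Lib.FatPoints
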