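import Mathlib

/-!
Polynomials over a field `k`: the substitutions `F(x + T z)` and `F(T x)`, degrees in a direction,
homogeneity, and the link with powers of the ideal of a point.
-/

set_option autoImplicit false
set_option linter.unusedSimpArgs false
set_option linter.unnecessarySimpa false
set_option linter.unusedVariables false
set_option linter.unusedSectionVars false

open MvPolynomial

namespace Pool.Agent.Lib.FatPoints

universe u

variable {k : Type u} [Field k] {σ : Type}

/-- `F ↦ F(x + T z)`. -/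
noncomputable def sh (z : σ → k) : MvPolynomial σ k →+* Polynomial (MvPolynomial σ k) :=
  MvPolynomial.eval₂Hom
    ((Polynomial.C : MvPolynomial σ k →+* Polynomial (MvPolynomial σ k)).comp
      (C : k →+* MvPolynomial σ k))
    (fun i => Polynomial.C (X i) + Polynomial.C (C (z i)) * Polynomial.X)

/-- degree in `T` of `F(x + T z)`. -/
noncomputable def K (z : σ → k) (F : MvPolynomial σ k) : ℕ := (sh z F).natDegree

/-- `F ↦ F(T x)`. -/
noncomputable def sc : MvPolynomial σ k →+* Polynomial (MvPolynomial σ k) :=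
  MvPolynomial.eval₂Hom
    ((Polynomial.C : MvPolynomial σ k →+* Polynomial (MvPolynomial σ k)).comp
      (C : k →+* MvPolynomial σ k))
    (fun i => Polynomial.C (X i) * Polynomial.X)

/-- `F` is homogeneous of degree `d`: `F(T x) = T^d F(x)`. -/
def Hd (d : ℕ) (F : MvPolynomial σ k) : Prop := sc F = Polynomial.C F * Polynomial.X ^ d

@[simp] lemma sh_X (z : σ → k) (i : σ) :
    sh z (X i) = Polynomial.C (X i) + Polynomial.C (C (z i)) * Polynomial.X := by
  simp [sh]

@[simp] lemma sh_C (z : σ → k) (a : k) : sh z (C a) = Polynomial.C (C a) := by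
  simp [sh]

@[simp] lemma sc_X (i : σ) :
    sc (X i : MvPolynomial σ k) = Polynomial.C (X i) * Polynomial.X := by
  simp [sc]

@[simp] lemma sc_C (a : k) : sc (C a : MvPolynomial σ k) = Polynomial.C (C a) := by
  simp [sc]

lemma sh_coeff_zero (z : σ → k) (F : MvPolynomial σ k) : (sh z F).coeff 0 = F := by
  have h : (Polynomial.constantCoeff : Polynomial (MvPolynomial σ k) →+* _).comp (sh z)
      = RingHom.id _ := by
    apply MvPolynomial.ringHom_ext
    · intro a; simp
    · intro i; simp
  have := congrArg (fun φ => φ F) h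
  simpa using this

lemma sh_injective (z : σ → k) : Function.Injective (sh z : MvPolynomial σ k → _) := by
  intro F G h
  rw [← sh_coeff_zero z F, ← sh_coeff_zero z G, h]

lemma sh_ne_zero (z : σ → k) {F : MvPolynomial σ k} (h : F ≠ 0) : sh z F ≠ 0 := by
  rwa [Ne, map_eq_zero_iff _ (sh_injective z)]

lemma top_ne_zero (y : σ → k) {F : MvPolynomial σ k} (hF : F ≠ 0) :
    (sh y F).coeff (K y F) ≠ 0 := by
  have := sh_ne_zero y hF
  rw [← Polynomial.leadingCoeff_ne_zero] at this
  exact this

/-- The substitution `x ↦ x + T y` on polynomials in an extra variable `S`. -/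
noncomputable def ext (y : σ → k) :
    Polynomial (MvPolynomial σ k) →+* Polynomial (Polynomial (MvPolynomial σ k)) :=
  Polynomial.eval₂RingHom (R := MvPolynomial σ k) (S := Polynomial (Polynomial (MvPolynomial σ k)))
    ((Polynomial.mapRingHom
      (Polynomial.C : MvPolynomial σ k →+* Polynomial (MvPolynomial σ k))).comp (sh y))
    (Polynomial.C Polynomial.X)

lemma ext_C (y : σ → k) (a : MvPolynomial σ k) :
    ext y (Polynomial.C a) = (sh y a).map Polynomial.C := by
  simp [ext]

lemma ext_X (y : σ → k) :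
    ext y Polynomial.X = Polynomial.C (Polynomial.X : Polynomial (MvPolynomial σ k)) := by
  simp [ext]

lemma ext_coeff (y : σ → k) (P : Polynomial (MvPolynomial σ k)) (i j : ℕ) :
    ((ext y P).coeff i).coeff j = (sh y (P.coeff j)).coeff i := by
  induction P using Polynomial.induction_on' with
  | add p q hp hq => simp [hp, hq]
  | monomial n a =>
    rw [← Polynomial.C_mul_X_pow_eq_monomial, map_mul, map_pow, ext_C, ext_X, ← map_pow,
      Polynomial.coeff_mul_C, Polynomial.coeff_map, Polynomial.coeff_C_mul, Polynomial.coeff_X_pow,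
      Polynomial.coeff_C_mul, Polynomial.coeff_X_pow]
    by_cases h : j = n
    · subst h; simp
    · simp [h]

lemma sc_eval_one (F : MvPolynomial σ k) : Polynomial.eval 1 (sc F) = F := by
  have h : (Polynomial.evalRingHom (1 : MvPolynomial σ k)).comp (sc : MvPolynomial σ k →+* _) =
      RingHom.id _ := by
    apply MvPolynomial.ringHom_ext
    · intro a; simp
    · intro i; simp
  have := congrArg (fun φ => φ F) h
  simpa using this

lemma sc_injective : Function.Injective (sc : MvPolynomial σ k → _) := by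
  intro F G hFG
  rw [← sc_eval_one F, ← sc_eval_one G, hFG]

lemma Hd_of_mul {a b : ℕ} {F : MvPolynomial σ k} (h0 : F ≠ 0)
    (h : sc F * Polynomial.X ^ a = Polynomial.C F * Polynomial.X ^ b) : a ≤ b ∧ Hd (b - a) F := by
  have hab : a ≤ b := by
    by_contra hlt
    push Not at hlt
    have h1 : (sc F * Polynomial.X ^ a).coeff b = 0 := by
      rw [Polynomial.coeff_mul_X_pow']; simp [Nat.not_le.mpr hlt]
    rw [h] at h1
    simp at h1
    exact h0 h1
  refine ⟨hab, ?_⟩
  have hX : (Polynomial.X ^ a : Polynomial (MvPolynomial σ k)) ≠ 0 :=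
    pow_ne_zero _ Polynomial.X_ne_zero
  apply mul_right_cancel₀ hX
  rw [h, mul_assoc, ← pow_add, Nat.sub_add_cancel hab]

lemma sc_sh (z : σ → k) (F : MvPolynomial σ k) :
    ((sh z F).map sc).comp (Polynomial.C Polynomial.X * Polynomial.X) =
      ext z (sc F) := by
  have h : ((Polynomial.compRingHom (Polynomial.C Polynomial.X * Polynomial.X)).comp
      (Polynomial.mapRingHom sc)).comp (sh z) = (ext z).comp sc := by
    apply MvPolynomial.ringHom_ext
    · intro a; simp [ext_C]
    · intro i; simp [ext_C, ext_X]; ring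
  have := congrArg (fun φ => φ F) h
  simpa using this

lemma sc_coeff {d : ℕ} {F : MvPolynomial σ k} (hF : Hd d F) (z : σ → k) (j : ℕ) :
    sc ((sh z F).coeff j) * Polynomial.X ^ j
      = Polynomial.C ((sh z F).coeff j) * Polynomial.X ^ d := by
  have h := sc_sh z F
  rw [hF, map_mul, map_pow, ext_C, ext_X, ← map_pow] at h
  have h2 := congrArg (fun P => P.coeff j) h
  simp only [Polynomial.comp_C_mul_X_coeff, Polynomial.coeff_map, Polynomial.coeff_mul_C] at h2
  exact h2

lemma Hd_coeff {d : ℕ} {F : MvPolynomial σ k} (hF : Hd d F) (z : σ → k) (j : ℕ)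
    (h0 : (sh z F).coeff j ≠ 0) : j ≤ d ∧ Hd (d - j) ((sh z F).coeff j) :=
  Hd_of_mul h0 (sc_coeff hF z j)

lemma K_le_of_Hd {d : ℕ} {F : MvPolynomial σ k} (hF : Hd d F) (z : σ → k) : K z F ≤ d := by
  unfold K
  rw [Polynomial.natDegree_le_iff_coeff_eq_zero]
  intro j hj
  by_contra h0
  have := (Hd_coeff hF z j h0).1
  omega

lemma Hd.pow {d : ℕ} {F : MvPolynomial σ k} (h : Hd d F) (N : ℕ) : Hd (N * d) (F ^ N) := by
  unfold Hd at *
  rw [map_pow, h, mul_pow, map_pow, ← pow_mul, mul_comm d N]

lemma K_pow (z : σ → k) (F : MvPolynomial σ k) (N : ℕ) : K z (F ^ N) = N * K z F := by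
  unfold K
  rw [map_pow, Polynomial.natDegree_pow]

lemma Hd_monomial (s : σ →₀ ℕ) (a : k) :
    Hd (s.sum fun _ e => e) (monomial s a : MvPolynomial σ k) := by
  unfold Hd
  rw [MvPolynomial.monomial_eq, map_mul, sc_C, map_mul]
  have : sc (s.prod fun n e => (X n : MvPolynomial σ k) ^ e) =
      Polynomial.C (s.prod fun n e => (X n : MvPolynomial σ k) ^ e) *
        Polynomial.X ^ (s.sum fun _ e => e) := by
    rw [map_finsuppProd, map_finsuppProd, Finsupp.sum, ← Finset.prod_pow_eq_pow_sum]
    rw [Finsupp.prod, Finsupp.prod, ← Finset.prod_mul_distrib]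
    apply Finset.prod_congr rfl
    intro i _
    rw [map_pow, sc_X, map_pow, mul_pow]
  rw [this]; ring

lemma natDegree_sc_le (F : MvPolynomial σ k) : (sc F).natDegree ≤ F.totalDegree := by
  conv_lhs => rw [MvPolynomial.as_sum F]
  rw [map_sum]
  apply Polynomial.natDegree_sum_le_of_forall_le
  intro s hs
  rw [Hd_monomial]
  refine (Polynomial.natDegree_C_mul_X_pow_le _ _).trans ?_
  exact MvPolynomial.le_totalDegree hs

lemma natDegree_sc_coeff (z : σ → k) {F : MvPolynomial σ k} {j : ℕ}
    (h0 : (sh z F).coeff j ≠ 0) :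
    (sc ((sh z F).coeff j)).natDegree + j ≤ (sc F).natDegree := by
  have h := congrArg (fun P => P.coeff j) (sc_sh z F)
  simp only [Polynomial.comp_C_mul_X_coeff, Polynomial.coeff_map] at h
  have hs : sc ((sh z F).coeff j) ≠ 0 := by rwa [Ne, map_eq_zero_iff _ sc_injective]
  have h2 : (sc ((sh z F).coeff j) * Polynomial.X ^ j).natDegree
      = (sc ((sh z F).coeff j)).natDegree + j := Polynomial.natDegree_mul_X_pow j hs
  rw [← h2, h, Polynomial.natDegree_le_iff_coeff_eq_zero]
  intro e he
  rw [ext_coeff, Polynomial.coeff_eq_zero_of_natDegree_lt he]; simp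

lemma Hd_sc_coeff (F : MvPolynomial σ k) (e : ℕ) : Hd e ((sc F).coeff e) := by
  have h : (Polynomial.mapRingHom sc).comp (sc : MvPolynomial σ k →+* _) =
      ((Polynomial.compRingHom (Polynomial.C Polynomial.X * Polynomial.X)).comp
        (Polynomial.mapRingHom
          (Polynomial.C : MvPolynomial σ k →+* Polynomial (MvPolynomial σ k)))).comp sc := by
    apply MvPolynomial.ringHom_ext
    · intro a; simp
    · intro i; simp; ring
  have h1 := congrArg (fun φ => (φ F).coeff e) h
  simp only [RingHom.coe_comp, Function.comp_apply, Polynomial.coe_mapRingHom,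
    Polynomial.coeff_map, Polynomial.coe_compRingHom_apply, Polynomial.comp_C_mul_X_coeff] at h1
  exact h1

lemma K_sc_coeff_le (z : σ → k) (F : MvPolynomial σ k) (e : ℕ) :
    K z ((sc F).coeff e) ≤ K z F := by
  unfold K
  rw [Polynomial.natDegree_le_iff_coeff_eq_zero]
  intro j hj
  have h := congrArg (fun P => (P.coeff j).coeff e) (sc_sh z F)
  simp only [Polynomial.comp_C_mul_X_coeff, Polynomial.coeff_map, ext_coeff] at h
  rw [← h, Polynomial.coeff_eq_zero_of_natDegree_lt hj]; simp

lemma sc_coeff_eq (F : MvPolynomial σ k) (e : ℕ) :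
    (sc F).coeff e = homogeneousComponent e F := by
  induction F using MvPolynomial.induction_on' with
  | add f g hf hg => rw [map_add, Polynomial.coeff_add, hf, hg, map_add]
  | monomial s a =>
    rw [Hd_monomial, Polynomial.coeff_C_mul, Polynomial.coeff_X_pow]
    have hm : (monomial s a : MvPolynomial σ k).IsHomogeneous (s.sum fun _ e => e) :=
      isHomogeneous_monomial a rfl
    rw [homogeneousComponent_of_mem ((mem_homogeneousSubmodule _ _).mpr hm)]
    split_ifs <;> simp

lemma Hd.isHomogeneous {d : ℕ} {F : MvPolynomial σ k} (h : Hd d F) : F.IsHomogeneous d := by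
  have h1 := congrArg (fun P => P.coeff d) h
  simp only [Polynomial.coeff_C_mul, Polynomial.coeff_X_pow, if_pos, mul_one] at h1
  rw [sc_coeff_eq] at h1
  rw [← h1]; exact homogeneousComponent_isHomogeneous _ _

lemma Hd_of_isHomogeneous {d : ℕ} {F : MvPolynomial σ k} (h : F.IsHomogeneous d) : Hd d F := by
  unfold Hd
  ext1 e
  rw [sc_coeff_eq, Polynomial.coeff_C_mul, Polynomial.coeff_X_pow,
    homogeneousComponent_of_mem ((mem_homogeneousSubmodule _ _).mpr h)]
  split_ifs <;> simp

/-! ### The ideal of a point -/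

/-- The ideal generated by the linear forms vanishing at `p`. -/
noncomputable def LI (p : σ → k) : Ideal (MvPolynomial σ k) :=
  Ideal.span {g | g.IsHomogeneous 1 ∧ eval p g = 0}

/-- The map `f ↦ f(U x + S p)`. -/
noncomputable def Psi (p : σ → k) :
    MvPolynomial σ k →+* Polynomial (Polynomial (MvPolynomial σ k)) :=
  (Polynomial.mapRingHom sc).comp (sh p)

lemma Psi_coeff (p : σ → k) (f : MvPolynomial σ k) (j : ℕ) :
    (Psi p f).coeff j = sc ((sh p f).coeff j) := by
  simp [Psi]

lemma dvd_pow_aux {A B : Type u} [CommRing A] [CommRing B] (φ : A →+* B) (I : Ideal A) (b : B)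
    (h : ∀ f ∈ I, b ∣ φ f) (m : ℕ) : ∀ f ∈ I ^ m, b ^ m ∣ φ f := by
  have h1 : I ≤ Ideal.comap φ (Ideal.span {b}) := by
    intro f hf
    rw [Ideal.mem_comap, Ideal.mem_span_singleton]
    exact h f hf
  intro f hf
  have h2 : f ∈ Ideal.comap φ (Ideal.span {b} ^ m) :=
    Ideal.le_comap_pow _ _ (Ideal.pow_right_mono h1 m hf)
  rwa [Ideal.mem_comap, Ideal.span_singleton_pow, Ideal.mem_span_singleton] at h2

/-- The (non homogeneous) evaluation `f ↦ f(T p)`. -/
noncomputable def evT (p : σ → k) : MvPolynomial σ k →+* Polynomial k :=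
  MvPolynomial.eval₂Hom (Polynomial.C : k →+* Polynomial k)
    (fun i => Polynomial.C (p i) * Polynomial.X)

lemma evT_eq (p : σ → k) (F : MvPolynomial σ k) : evT p F = (sc F).map (eval p) := by
  have h : (Polynomial.mapRingHom (eval p)).comp (sc : MvPolynomial σ k →+* _) = evT p := by
    apply MvPolynomial.ringHom_ext
    · intro a; simp [evT]
    · intro i; simp [evT]
  rw [← h]; simp

lemma ker_dvd (p : σ → k) (f : MvPolynomial σ k) (hf : f ∈ RingHom.ker (evT p)) :
    Polynomial.C (Polynomial.X : Polynomial (MvPolynomial σ k)) ∣ Psi p f := by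
  rw [Polynomial.C_dvd_iff_dvd_coeff]
  intro j
  rw [Polynomial.X_dvd_iff, Psi_coeff]
  have h : (Polynomial.mapRingHom
      ((Polynomial.constantCoeff : Polynomial (MvPolynomial σ k) →+* MvPolynomial σ k).comp
      sc)).comp (sh p) = (Polynomial.mapRingHom (C : k →+* MvPolynomial σ k)).comp (evT p) := by
    apply MvPolynomial.ringHom_ext
    · intro a; simp [evT]
    · intro i; simp [evT]
  have h1 := congrArg (fun φ => (φ f).coeff j) h
  have hf0 : evT p f = 0 := hf
  simp only [RingHom.coe_comp, Function.comp_apply, hf0, map_zero, Polynomial.coeff_zero,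
    Polynomial.coe_mapRingHom, Polynomial.coeff_map] at h1
  simpa using h1

/-- multiplicity `m` at `p` bounds the degree in direction `p` (kernel version of the ideal). -/
lemma K_add_le_of_mem_ker (p : σ → k) {m : ℕ} {f : MvPolynomial σ k}
    (hf : f ∈ RingHom.ker (evT p) ^ m) (h0 : f ≠ 0) : K p f + m ≤ (sc f).natDegree := by
  have h1 := dvd_pow_aux (A := MvPolynomial σ k) (B := Polynomial (Polynomial (MvPolynomial σ k)))
    (Psi p) (RingHom.ker (evT p)) (Polynomial.C Polynomial.X) (ker_dvd p) m f hf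
  rw [← map_pow, Polynomial.C_dvd_iff_dvd_coeff] at h1
  have h2 := h1 (K p f)
  rw [Psi_coeff] at h2
  have h3 := top_ne_zero p h0
  have hs : sc ((sh p f).coeff (K p f)) ≠ 0 := by rwa [Ne, map_eq_zero_iff _ sc_injective]
  have h4 := Polynomial.natDegree_le_of_dvd h2 hs
  rw [Polynomial.natDegree_X_pow] at h4
  have h5 := natDegree_sc_coeff p h3
  omega

lemma LI_le_ker (p : σ → k) : LI p ≤ RingHom.ker (evT p) := by
  unfold LI
  rw [Ideal.span_le]
  rintro g ⟨hg, hp⟩
  rw [SetLike.mem_coe, RingHom.mem_ker, evT_eq, Hd_of_isHomogeneous hg]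
  simp [hp]

lemma K_add_le_of_mem (p : σ → k) {m : ℕ} {f : MvPolynomial σ k} (hf : f ∈ LI p ^ m)
    (h0 : f ≠ 0) : K p f + m ≤ (sc f).natDegree :=
  K_add_le_of_mem_ker p (Ideal.pow_right_mono (LI_le_ker p) m hf) h0

lemma natDegree_sc_of_Hd {d : ℕ} {F : MvPolynomial σ k} (h0 : F ≠ 0) (hF : Hd d F) :
    (sc F).natDegree = d := by
  rw [hF, Polynomial.natDegree_C_mul_X_pow _ _ h0]

/-- Conversely a form of small degree in direction `p` lies in a power of the ideal of `p`. -/
lemma mem_of_K_add_le {p : σ → k} (hp : p ≠ 0) {b t : ℕ} {F : MvPolynomial σ k} (hF : Hd b F)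
    (hK : K p F + t ≤ b) : F ∈ LI p ^ t := by
  classical
  obtain ⟨i0, hi0⟩ : ∃ i, p i ≠ 0 := by
    by_contra hcon
    push Not at hcon
    exact hp (funext hcon)
  let θ : MvPolynomial σ k →+* MvPolynomial σ k :=
    MvPolynomial.eval₂Hom (C : k →+* MvPolynomial σ k)
      (fun j => X j - C (p j / p i0) * X i0)
  have hθX : ∀ j, θ (X j) = X j - C (p j / p i0) * X i0 := fun j => by simp [θ]
  have hθC : ∀ a, θ (C a) = C a := fun a => by simp [θ]
  have hθmem : ∀ j, θ (X j) ∈ LI p := by
    intro j
    apply Ideal.subset_span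
    rw [hθX]
    refine ⟨?_, ?_⟩
    · apply IsHomogeneous.sub (isHomogeneous_X _ _)
      have := (isHomogeneous_C σ (p j / p i0)).mul (isHomogeneous_X k i0)
      simpa using this
    · simp; field_simp; simp
  have hθhom : ∀ (e : ℕ) (A : MvPolynomial σ k), A.IsHomogeneous e → θ A ∈ LI p ^ e := by
    intro e A hA
    rw [MvPolynomial.as_sum A, map_sum]
    apply Ideal.sum_mem
    intro s hs
    rw [MvPolynomial.monomial_eq, map_mul]
    apply Ideal.mul_mem_left
    rw [map_finsuppProd]
    have hse : s.sum (fun _ e => e) = e := by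
      have := hA (mem_support_iff.mp hs)
      rw [← this]; exact (Finsupp.degree_eq_weight_one (R := ℕ) ▸ rfl)
    rw [← hse, Finsupp.sum, ← Finset.prod_pow_eq_pow_sum, Finsupp.prod]
    apply Ideal.prod_mem_prod
    intro j _
    rw [map_pow]
    exact Ideal.pow_mem_pow (hθmem j) _
  have hid : (Polynomial.eval₂RingHom θ (C (1 / p i0) * X i0)).comp (sh p) = RingHom.id _ := by
    apply MvPolynomial.ringHom_ext
    · intro a; simp [hθC]
    · intro j
      simp only [RingHom.coe_comp, Function.comp_apply, sh_X, Polynomial.coe_eval₂RingHom,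
        Polynomial.eval₂_add, Polynomial.eval₂_mul, Polynomial.eval₂_C, Polynomial.eval₂_X,
        hθX, hθC, RingHom.id_apply]
      rw [← mul_assoc, ← map_mul, mul_one_div]
      ring
  have h1 : F = Polynomial.eval₂ θ (C (1 / p i0) * X i0) (sh p F) := by
    have := congrArg (fun φ => φ F) hid
    simpa using this.symm
  rw [h1, Polynomial.eval₂_eq_sum_range]
  apply Ideal.sum_mem
  intro j hj
  rw [Finset.mem_range] at hj
  apply Ideal.mul_mem_right
  by_cases h0 : (sh p F).coeff j = 0
  · rw [h0, map_zero]; exact Ideal.zero_mem _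
  · obtain ⟨hjb, hH⟩ := Hd_coeff hF p j h0
    have h2 := hθhom (b - j) _ hH.isHomogeneous
    have hjK : j ≤ K p F := by unfold K; omega
    exact Ideal.pow_le_pow_right (by omega) h2

end Pool.Agent.Lib.FatPoints
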